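import Mathlib
import Pool.Agent.W873.Ns.Sc

set_option autoImplicit false

/-!
# The tree property at the successor of a singular cardinal without the narrow system property

The forcing relation is the one of `Pool.Agent.Helper669.Forcing`: a sentence is the set of the
conditions which force it.

The conditions of the forcing `R` of the proof are the subadditive functions
`d : [γ + 1]² → ω`, for `γ < λ⁺`, ordered by end-extension. The generic function `d : [λ⁺]² → ω`
gives the relations `α <ₙ β` if and only if `α < β` and `d (α, β) ≤ n`, for `n < ω`.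
-/

namespace Pool.Agent.Results.MP_422f9f_lc.TreePropertyWithoutNarrowSystems

open Cardinal Pool.Agent.Helper669.Forcing

/-- `lam`, as a set of ordinals -/
abbrev Lam (lam : Cardinal.{0}) : Type := lam.ord.ToType

/-- the cardinal successor `λ⁺` of `lam`, as a set of ordinals -/
abbrev LamPlus (lam : Cardinal.{0}) : Type := (Order.succ lam).ord.ToType

section

variable {P : Type} [Preorder P] {L K : Type} [LinearOrder K]

/-- `φ or ψ` is `not (not φ and not ψ)`. -/
def for' (φ ψ : Set P) : Set P := fnot (fand (fnot φ) (fnot ψ))

/-- In the extension: `L` with the relation named by `R` is a tree of height `K`, and all its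
levels are nonempty and have at most `|W|` elements. Here `ℓ` names the level function, with values
in `K`: if `x` is below `y` then the level of `x` is smaller, the relation is transitive, and each
`y` has exactly one predecessor on each level below its own. -/
def IsTree (W : Type) (R : L → L → Set P) (ℓ : L → K → Set P) : Set P :=
  fand (IsFun ℓ)
  (fand (fall fun x : L => fall fun y : L => fall fun a : K => fall fun b : K =>
    fimp (fand (meets (R x y)) (fand (meets (ℓ x a)) (meets (ℓ y b)))) (fground (a < b)))
  (fand (fall fun x : L => fall fun y : L => fall fun z : L =>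
    fimp (fand (meets (R x y)) (meets (R y z))) (meets (R x z)))
  (fand (fall fun y : L => fall fun b : K => fall fun a : K => fall fun _ : a < b =>
    fimp (meets (ℓ y b)) (fex fun x : L => fand (meets (R x y)) (meets (ℓ x a))))
  (fand (fall fun x : L => fall fun y : L => fall fun z : L => fall fun a : K =>
    fimp (fand (fand (meets (R x z)) (meets (R y z))) (fand (meets (ℓ x a)) (meets (ℓ y a))))
      (fground (x = y)))
  (fand (fall fun a : K => fex fun x : L => meets (ℓ x a))
    (fall fun a : K => fex fun F : W → L → Set P =>
      fand (IsFun F) (fall fun x : L => fimp (meets (ℓ x a))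
        (fex fun w : W => meets (F w x)))))))))

/-- In the extension: `B` is a linearly ordered subset of the tree named by `R` and `ℓ` which
meets all levels. -/
def IsCofinalBranch (R : L → L → Set P) (ℓ : L → K → Set P) (B : L → Set P) : Set P :=
  fand (fall fun x : L => fall fun y : L =>
    fimp (fand (meets (B x)) (meets (B y)))
      (for' (fground (x = y)) (for' (meets (R x y)) (meets (R y x)))))
    (fall fun a : K => fex fun x : L => fand (meets (B x)) (meets (ℓ x a)))

/-- In the extension: the set `K × X`, with the levels `{α} × X`, and with the binary relations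
named by `R n`, where `n ∈ N`, is a `K`-system: the relations are transitive and tree-like, they
relate elements only to elements of higher levels, and for all `α < β` some element of level `α` is
related to some element of level `β` by one of the relations. -/
def IsSystem (N X : Type) (R : N → K × X → K × X → Set P) : Set P :=
  fand (fall fun n : N => fall fun u : K × X => fall fun v : K × X => fall fun w : K × X =>
    fimp (fand (meets (R n u v)) (meets (R n v w))) (meets (R n u w)))
  (fand (fall fun n : N => fall fun u : K × X => fall fun v : K × X => fall fun w : K × X =>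
    fimp (fand (meets (R n u w)) (meets (R n v w)))
      (for' (fground (u = v)) (for' (meets (R n u v)) (meets (R n v u)))))
  (fand (fall fun n : N => fall fun u : K × X => fall fun v : K × X =>
    fimp (meets (R n u v)) (fground (u.1 < v.1)))
  (fall fun α : K => fall fun β : K => fall fun _ : α < β =>
    fex fun x : X => fex fun y : X => fex fun n : N => meets (R n (α, x) (β, y)))))

/-- In the extension: `B` is a set of pairwise `R`-comparable elements which meets unboundedly many
levels. -/
def IsSystemBranch {X : Type} (R : K × X → K × X → Set P) (B : K × X → Set P) : Set P :=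
  fand (fall fun u : K × X => fall fun v : K × X => fimp (fand (meets (B u)) (meets (B v)))
      (for' (fground (u = v)) (for' (meets (R u v)) (meets (R v u)))))
    (fall fun α : K => fex fun v : K × X => fand (fground (α < v.1)) (meets (B v)))

/-- In the extension: `F` is a proper `κ`-complete filter on `X`. -/
def IsCompleteFilter {X : Type} (κ : Cardinal.{0}) (F : (X → Set P) → Set P) : Set P :=
  fand (fall fun A : X → Set P => fall fun A' : X → Set P =>
    fimp (fand (meets (F A)) (fall fun a : X => fimp (meets (A a)) (meets (A' a))))
      (meets (F A')))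
  (fand (fnot (meets (F fun _ => fground False)))
  (fall fun I : Type => fall fun _ : #I < κ => fall fun A : I → X → Set P =>
    fimp (fall fun i : I => meets (F (A i))) (meets (F fun a => fall fun i : I => meets (A i a)))))

/-- In the extension: for each set `A`, the family `U` contains `A` or the complement of `A`. -/
def IsUltra {X : Type} (U : (X → Set P) → Set P) : Set P :=
  fall fun A : X → Set P => for' (meets (U A)) (meets (U fun a => fnot (meets (A a))))

end

section

variable (P : Type) [Preorder P] (lam : Cardinal.{0})

/-- In the extension: `κ` is strongly compact, that is, each `κ`-complete filter on a set can be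
extended to a `κ`-complete ultrafilter. -/
def StronglyCompact (κ : Cardinal.{0}) : Set P :=
  fall fun X : Type => fall fun F : (X → Set P) → Set P => fimp (IsCompleteFilter κ F)
    (fex fun U : (X → Set P) → Set P => fand (IsCompleteFilter κ U) (fand (IsUltra U)
      (fall fun A : X → Set P => fimp (meets (F A)) (meets (U A)))))

/-- The tree property at `λ⁺` holds in the extension: every tree of height `λ⁺` with levels of size
at most `λ` has a cofinal branch. (The underlying set of the tree is any set `L` of the ground
model; in the extension each set is in bijection with such a set.) -/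
def TreeProp : Set P :=
  fall fun L : Type => fall fun R : L → L → Set P => fall fun ℓ : L → LamPlus lam → Set P =>
    fimp (IsTree (Lam lam) R ℓ) (fex fun B : L → Set P => IsCofinalBranch R ℓ B)

/-- The narrow system property at `λ⁺` fails in the extension: there is a `λ⁺`-system of width
`max |X| |N|`, where the successor of the width is smaller than `λ⁺`, which has no cofinal branch
through any of its relations. -/
def NarrowSystemWithoutBranch : Set P :=
  fex fun N : Type => fex fun X : Type => fex fun R : N → LamPlus lam × X → LamPlus lam × X → Set P =>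
    fand (fground (0 < #N ∧ 0 < #X ∧ Order.succ (max #X #N) < Order.succ lam))
    (fand (IsSystem N X R)
      (fall fun n : N => fall fun B : LamPlus lam × X → Set P => fnot (IsSystemBranch (R n) B)))

/-- All uncountable cardinals `ν ≤ λ⁺` of the ground model are cardinals of the extension: no
function from a set of smaller ground model cardinality `μ` to `ν` is onto. -/
def CardinalsPreserved : Set P :=
  fall fun μ : Cardinal.{0} => fall fun ν : Cardinal.{0} => fall fun _ : μ < ν =>
    fall fun _ : ℵ₀ < ν => fall fun _ : ν ≤ Order.succ lam =>
      fnot (fex fun R : μ.out → ν.out → Set P => fand (IsFun R) (IsOnto R))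

/-- All functions of the extension from `λ` to the ground model are in the ground model. -/
def NoNewSequences : Set P :=
  fall fun Z : Type => fall fun E : Lam lam → Z → Set P =>
    fimp (IsFun E) (fex fun g : Lam lam → Z => fall fun a => meets (E a (g a)))

/-- `P` is `λ⁺`-directed closed: every directed family of at most `λ` conditions has a lower
bound. -/
def DirectedClosed : Prop :=
  ∀ (ι : Type) (D : ι → P), #ι ≤ lam → Nonempty ι → (∀ i j, ∃ k, D k ≤ D i ∧ D k ≤ D j) →
    ∃ p, ∀ i, p ≤ D i

end

/-- The strong compactness of `κ` is indestructible under `κ`-directed closed forcing: if every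
directed family of less than `κ` conditions of `Q` has a lower bound, then `κ` is strongly compact
in the extension by `Q`. (The forcing `Q` can be trivial.) -/
def IndestructiblyStronglyCompact (κ : Cardinal.{0}) : Prop :=
  ∀ (Q : Type) [Preorder Q], (∀ (ι : Type) (D : ι → Q), #ι < κ → Nonempty ι →
    (∀ i j, ∃ k, D k ≤ D i ∧ D k ≤ D j) → ∃ p, ∀ i, p ≤ D i) → ∀ q : Q, q ∈ StronglyCompact Q κ

/-- The tree property at `λ⁺` holds and is indestructible under `λ⁺`-directed closed forcing. -/
def Indestructible (lam : Cardinal.{0}) : Prop :=
  ∀ (Q : Type) [Preorder Q], DirectedClosed Q lam → ∀ q : Q, q ∈ TreeProp Q lam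

/-- There is a forcing `R` which adds no new sequences of length `λ` and preserves all cardinals
up to `λ⁺`, such that in the extension by `R` the tree property at `λ⁺` holds and the narrow system
property at `λ⁺` fails. -/
def ForcesTreePropWithoutNSP (lam : Cardinal.{0}) : Prop :=
  ∃ (R : Type) (_ : Preorder R), Nonempty R ∧
    ∀ r : R, r ∈ NoNewSequences R lam ∧ r ∈ CardinalsPreserved R lam ∧ r ∈ TreeProp R lam ∧
      r ∈ NarrowSystemWithoutBranch R lam

open Pool.Agent.W873 Pool.Agent.W873.Td Pool.Agent.W873.Ns in
theorem main (lam : Cardinal.{0}) (hlam : ℵ₀ < lam) (h1 : lam < lam ^ ℵ₀)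
    (H : ∀ (Q : Type) [Preorder Q], DirectedClosed Q lam → ∀ q : Q, q ∈ TreeProp Q lam) :
    ForcesTreePropWithoutNSP lam := by
  have h0 : ℵ₀ ≤ lam := hlam.le
  refine ⟨Ns.Rc (Kl lam), inferInstance, Ns.nonempty_Rc h0, fun r => ⟨?_, ?_, ?_, ?_⟩⟩
  · intro Z E
    refine mem_fimp.2 fun r' _ hr' => ?_
    obtain ⟨r1, hr1, g, hg⟩ := Ns.noNew_R h0 Z E r' hr'
    exact ⟨r1, hr1, mem_fex.2 fun r2 hr2 => ⟨r2, le_rfl, g, fun a => down_meets _ _ (hg a) _ hr2⟩⟩
  · intro μ ν hμν _ hν r' _ hr'
    obtain ⟨r1, _, E, hE⟩ := mem_fex.1 hr' r' le_rfl
    refine Ns.cards_R h0 (X := μ.out) (Y := ν.out) ?_ ?_ E r1 hE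
    · rw [mk_out]
      exact Order.lt_succ_iff.1 (hμν.trans_le hν)
    · rw [mk_out, mk_out]
      exact hμν
  · exact Ns.treeProp_R h0 h1 (fun Q _ hQ q => H Q hQ q) r
  · refine mem_fex.2 fun r1 _ => ⟨r1, le_rfl, ℕ, ?_⟩
    refine mem_fex.2 fun r2 _ => ⟨r2, le_rfl, Unit, ?_⟩
    refine mem_fex.2 fun r3 _ => ⟨r3, le_rfl, fun n u v => Ns.Rl n u.1 v.1, ?_, ?_, ?_⟩
    · refine ⟨?_, ?_, ?_⟩
      · rw [mk_nat]
        exact aleph0_pos
      · rw [mk_unit]
        exact one_pos
      · rw [mk_nat, mk_unit, max_eq_right one_le_aleph0]
        exact Order.succ_lt_succ hlam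
    · have hs := Ns.isSys_Rl r3
      refine ⟨fun n u v w => hs.1 n u.1 v.1 w.1, fun n u v w => ?_, fun n u v =>
        hs.2.2.1 n u.1 v.1, fun α β hαβ => ?_⟩
      · have h2 := hs.2.1 n u.1 v.1 w.1
        have h3 : (u = v) = (u.1 = v.1) := by
          simp [Prod.ext_iff]
        rw [h3]
        exact h2
      · refine mem_fex.2 fun s1 h1 => ⟨s1, le_rfl, (), ?_⟩
        refine mem_fex.2 fun s2 h2 => ⟨s2, le_rfl, (), ?_⟩
        exact down_fex _ _ (hs.2.2.2 α β hαβ) _ (h2.trans h1)
    · intro n B s hs hB
      refine Ns.no_br h0 (bd_Kl h0) (n := n) (B := fun a => B (a, ())) (r0 := s) ⟨fun a b => ?_,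
        fun a => ?_⟩
      · have h2 : s ∈ fimp (fand (meets (B (a, ()))) (meets (B (b, ()))))
            (for' (fground (((a, ()) : Kl lam × Unit) = (b, ())))
              (for' (meets (Ns.Rl n a b)) (meets (Ns.Rl n b a)))) := hB.1 (a, ()) (b, ())
        have h3 : (((a, ()) : Kl lam × Unit) = (b, ())) = (a = b) := by
          simp
        rw [h3] at h2
        exact h2
      · refine mem_fex.2 fun s1 hs1 => ?_
        obtain ⟨s2, hs2, v, hv⟩ := mem_fex.1 (hB.2 a) s1 hs1
        exact ⟨s2, hs2, v.1, hv⟩

/-- If `κ₀ < κ₁ < ...` are indestructibly strongly compact cardinals and `λ` is their supremum, so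
that `λ` is a singular cardinal, then there is a forcing extension, with the same cardinals up to
`λ⁺` and the same sequences of length `λ` of elements of the ground model, in which the tree
property at `λ⁺` holds and the narrow system property at `λ⁺` fails. The same is true for
each uncountable `λ` with `λ < λ^ω`, for instance each `λ` of cofinality `ω`, for which the tree
property at `λ⁺` is indestructible under `λ⁺`-directed closed forcing. -/
theorem result :
    (∀ κ : ℕ → Cardinal.{0}, StrictMono κ → (∀ n, ℵ₀ < κ n) →
      (∀ n, IndestructiblyStronglyCompact (κ n)) →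
      (⨆ n, κ n).ord.cof = ℵ₀ ∧ ℵ₀ < (⨆ n, κ n) ∧ ForcesTreePropWithoutNSP (⨆ n, κ n)) ∧
    ∀ lam : Cardinal.{0}, ℵ₀ < lam → lam < lam ^ ℵ₀ → Indestructible lam →
      ForcesTreePropWithoutNSP lam := by
  refine ⟨fun κ hκ hκ0 H => ?_, main⟩
  have h1 : ℵ₀ < (⨆ n, κ n) := (hκ0 0).trans_le (le_ciSup Cardinal.bddAbove_of_small 0)
  refine ⟨?_, h1, main _ h1 (Pool.Agent.W873.Ns.lt_pow_of_sup hκ rfl) fun Q _ hQ q => ?_⟩
  · rw [Ordinal.iSup_ord, Ordinal.cof_iSup fun a b h => ord_strictMono (hκ h), Order.cof_nat]
  · exact Pool.Agent.W873.Ns.treeProp_of_isc hκ hκ0 (fun n => H n) rfl hQ q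

end Pool.Agent.Results.MP_422f9f_lc.TreePropertyWithoutNarrowSystems
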